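import Mathlib

set_option autoImplicit false

namespace Pool.Agent.Results.MP_45899d_co.Two

/-- A straight-line plane drawing: distinct points for the vertices, and the segments of two
different arcs meet only at a common end vertex. -/
def Planar {n : ℕ} (A : Fin n → Fin n → Prop) : Prop :=
  ∃ p : Fin n → ℝ × ℝ, Function.Injective p ∧ ∀ a b c d, A a b → A c d →
    ∀ x ∈ segment ℝ (p a) (p b), x ∈ segment ℝ (p c) (p d) →
      (a = c ∧ b = d) ∨ ∃ v, (v = a ∨ v = b) ∧ (v = c ∨ v = d) ∧ x = p v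

/-- `S` induces no directed cycle. -/
def Acyc {n : ℕ} (A : Fin n → Fin n → Prop) (S : Set (Fin n)) : Prop :=
  ∀ v, ¬ Relation.TransGen (fun a b => a ∈ S ∧ b ∈ S ∧ A a b) v v

/-- There is an acyclic `(k, d)`-colouring. -/
def Col {n : ℕ} (A : Fin n → Fin n → Prop) (k d : ℕ) : Prop :=
  ∃ c : Fin n → ZMod k, ∀ i : ZMod k, Acyc A {v | ∃ j < d, c v = i + (j : ℕ)}

def L : List (Fin 7 × Fin 7) := [(0, 1), (1, 2), (2, 0), (3, 0), (3, 1), (3, 2), (1, 4), (4, 3),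
  (0, 4), (4, 5), (5, 0), (1, 5), (0, 6), (6, 3), (2, 6)]

def A (a b : Fin 7) : Prop := (a, b) ∈ L

instance : DecidableRel A := fun a b => by unfold A; infer_instance

def X : Fin 7 → ℤ := ![0, 12, 0, 3, 5, 5, 1]

def Y : Fin 7 → ℤ := ![0, 0, 12, 3, 2, 1, 3]

def cr (a b c : Fin 7) : ℤ := (X b - X a) * (Y c - Y a) - (Y b - Y a) * (X c - X a)

lemma chk : ∀ a b, A a b → ∀ c d, A c d → (a = c ∧ b = d) ∨ 0 < cr a b c * cr a b d ∨
    0 < cr c d a * cr c d b ∨ ((c = a ∨ c = b) ∧ cr a b c = 0 ∧ cr a b d ≠ 0) ∨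
    ((d = a ∨ d = b) ∧ cr a b d = 0 ∧ cr a b c ≠ 0) := by decide +kernel

def p (v : Fin 7) : ℝ × ℝ := (X v, Y v)

lemma seg {a b c d : Fin 7} {x : ℝ × ℝ} (h1 : x ∈ segment ℝ (p a) (p b)) {s t : ℝ}
    (hst : s + t = 1) (h2 : s • p c + t • p d = x) : s * cr a b c + t * cr a b d = 0 := by
  obtain ⟨u, v, -, -, huv, h3⟩ := h1
  rw [← h3] at h2
  obtain ⟨h4, h5⟩ := Prod.ext_iff.1 h2
  simp only [p, Prod.fst_add, Prod.snd_add, Prod.smul_fst, Prod.smul_snd, smul_eq_mul] at h4 h5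
  simp only [cr]
  push_cast
  obtain rfl : s = 1 - t := by linarith
  obtain rfl : u = 1 - v := by linarith
  linear_combination (X b - X a) * h5 - (Y b - Y a) * h4

lemma sep {s t e f : ℝ} (hs : 0 ≤ s) (ht : 0 ≤ t) (hst : s + t = 1) (h : s * e + t * f = 0)
    (h1 : 0 < e * f) : False := by
  rcases mul_pos_iff.1 h1 with ⟨h2, h3⟩ | ⟨h2, h3⟩ <;> rcases hs.eq_or_lt with rfl | h4 <;>
    nlinarith

lemma planar : Planar A := by
  refine ⟨p, fun a b h => ?_, fun a b c d h1 h2 x h3 h4 => ?_⟩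
  · obtain ⟨h1, h2⟩ := Prod.ext_iff.1 h
    simp only [p, Int.cast_inj] at h1 h2
    clear h
    revert a b
    decide
  · have ⟨s, t, hs, ht, hst, h5⟩ := h4
    have ⟨u, v, hu, hv, huv, h6⟩ := h3
    have h7 := seg h3 hst h5
    have h8 := seg h4 huv h6
    rcases chk a b h1 c d h2 with h | h | h | ⟨h, h9, h10⟩ | ⟨h, h9, h10⟩
    · exact Or.inl h
    · exact (sep hs ht hst h7 (by exact_mod_cast h)).elim
    · exact (sep hu hv huv h8 (by exact_mod_cast h)).elim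
    · have : t = 0 := by simpa [h9, h10] using h7
      obtain rfl : s = 1 := by linarith
      exact Or.inr ⟨c, h, Or.inl rfl, by simp [← h5, this]⟩
    · have : s = 0 := by simpa [h9, h10] using h7
      obtain rfl : t = 1 := by linarith
      exact Or.inr ⟨d, h, Or.inr rfl, by simp [← h5, this]⟩

def c2 : Fin 7 → ZMod 2 := ![0, 1, 1, 1, 0, 1, 0]

def rk : Fin 7 → ℕ := ![1, 1, 2, 0, 2, 2, 2]

lemma col21 : Col A 2 1 := by
  refine ⟨c2, fun i v h => ?_⟩
  have h1 : ∀ a b, c2 a = c2 b → A a b → rk a < rk b := by decide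
  have h2 : ∀ a b, a ∈ {v | ∃ j < 1, c2 v = i + (j : ℕ)} → b ∈ {v | ∃ j < 1, c2 v = i + (j : ℕ)} →
      c2 a = c2 b := by
    rintro a b ⟨j, hj, h3⟩ ⟨l, hl, h4⟩
    rw [h3, h4, show j = l by omega]
  have key : ∀ a b, Relation.TransGen (fun a b => a ∈ {v | ∃ j < 1, c2 v = i + (j : ℕ)} ∧
      b ∈ {v | ∃ j < 1, c2 v = i + (j : ℕ)} ∧ A a b) a b → rk a < rk b := by
    intro a b h
    induction h with
    | single h => exact h1 _ _ (h2 _ _ h.1 h.2.1) h.2.2
    | tail _ h ih => exact ih.trans (h1 _ _ (h2 _ _ h.1 h.2.1) h.2.2)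
  exact lt_irrefl _ (key v v h)

lemma ar (k d x y z x' y' z' : ℕ) (hd : 0 < d) (hk : k < 2 * d) (k1 : d ≤ x ∨ d ≤ z')
    (k2 : d ≤ x' ∨ d ≤ y) (k3 : d ≤ z ∨ d ≤ y') (a1 : x + y = z' ∨ x + y = z' + k)
    (a2 : x + x' = 0 ∨ x + x' = k) (a3 : y + y' = 0 ∨ y + y' = k) (a4 : z + z' = 0 ∨ z + z' = k)
    (b1 : x < k) (b2 : y < k) (b3 : z < k) (b4 : x' < k) (b5 : y' < k) (b6 : z' < k) :
    (x + d ≤ k ∧ y + d ≤ k ∧ z + d ≤ k ∧ x + y + z = k) ∨
      (d ≤ x ∧ d ≤ y ∧ d ≤ z ∧ x + y + z = 2 * k) := by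
  rcases k1 with k1 | k1 <;> rcases k2 with k2 | k2 <;> rcases k3 with k3 | k3 <;>
    rcases a1 with a1 | a1 <;> omega

lemma dadd {k : ℕ} [NeZero k] (a b c : ZMod k) :
    (b - a).val + (c - b).val = (c - a).val ∨ (b - a).val + (c - b).val = (c - a).val + k := by
  rw [show c - a = (b - a) + (c - b) by ring]
  rcases lt_or_ge ((b - a).val + (c - b).val) k with h | h
  · exact Or.inl (ZMod.val_add_of_lt h).symm
  · rw [ZMod.val_add_of_le h]
    omega

lemma tri {k d : ℕ} [NeZero k] (hd : 0 < d) (hk : k < 2 * d) {c : Fin 7 → ZMod k}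
    (hc : ∀ i : ZMod k, Acyc A {v | ∃ j < d, c v = i + (j : ℕ)}) (u v w : Fin 7)
    (h1 : A u v) (h2 : A v w) (h3 : A w u) :
    ((c v - c u).val + d ≤ k ∧ (c w - c v).val + d ≤ k ∧ (c u - c w).val + d ≤ k ∧
      (c v - c u).val + (c w - c v).val + (c u - c w).val = k) ∨
    (d ≤ (c v - c u).val ∧ d ≤ (c w - c v).val ∧ d ≤ (c u - c w).val ∧
      (c v - c u).val + (c w - c v).val + (c u - c w).val = 2 * k) := by
  have key : ∀ i, d ≤ (c u - i).val ∨ d ≤ (c v - i).val ∨ d ≤ (c w - i).val := by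
    intro i
    by_contra h
    push Not at h
    have hu : u ∈ {v | ∃ j < d, c v = i + (j : ℕ)} := ⟨_, h.1, by simp⟩
    have hv : v ∈ {v | ∃ j < d, c v = i + (j : ℕ)} := ⟨_, h.2.1, by simp⟩
    have hw : w ∈ {v | ∃ j < d, c v = i + (j : ℕ)} := ⟨_, h.2.2, by simp⟩
    exact hc i u (((Relation.TransGen.single ⟨hu, hv, h1⟩).tail ⟨hv, hw, h2⟩).tail ⟨hw, hu, h3⟩)
  have k1 := key (c u)
  have k2 := key (c v)
  have k3 := key (c w)
  have a2 := dadd (c u) (c v) (c u)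
  have a3 := dadd (c v) (c w) (c v)
  have a4 := dadd (c w) (c u) (c w)
  have e : ¬ d ≤ 0 := by omega
  simp only [sub_self, ZMod.val_zero, e, false_or, or_false, zero_add] at k1 k2 k3 a2 a3 a4
  exact ar k d _ _ _ _ _ _ hd hk k1 k2 k3 (dadd (c u) (c v) (c w)) a2 a3 a4 (ZMod.val_lt _)
    (ZMod.val_lt _) (ZMod.val_lt _) (ZMod.val_lt _) (ZMod.val_lt _) (ZMod.val_lt _)

/-- A simple planar digraph with star dichromatic number exactly `2`. -/
theorem result : ∃ (n : ℕ) (A : Fin n → Fin n → Prop), (∀ a b, A a b → ¬ A b a) ∧ Planar A ∧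
    IsLeast {r : ℚ | ∃ k d : ℕ, 1 ≤ d ∧ d ≤ k ∧ r = k / d ∧ Col A k d} 2 := by
  refine ⟨7, A, by decide, planar, ⟨2, 1, le_rfl, by norm_num, by norm_num, col21⟩, ?_⟩
  rintro r ⟨k, d, hd, hdk, rfl, c, hc⟩
  have : NeZero k := ⟨by omega⟩
  rw [le_div_iff₀ (by exact_mod_cast hd)]
  by_contra h
  have hk : k < 2 * d := by exact_mod_cast not_le.1 h
  have t1 := tri hd hk hc 0 1 2 (by decide) (by decide) (by decide)
  have t2 := tri hd hk hc 3 1 4 (by decide) (by decide) (by decide)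
  have t3 := tri hd hk hc 3 0 4 (by decide) (by decide) (by decide)
  have t4 := tri hd hk hc 0 4 5 (by decide) (by decide) (by decide)
  have t5 := tri hd hk hc 0 1 5 (by decide) (by decide) (by decide)
  have t6 := tri hd hk hc 3 0 6 (by decide) (by decide) (by decide)
  have t7 := tri hd hk hc 3 2 6 (by decide) (by decide) (by decide)
  have l : ∀ {x : ℕ}, x + d ≤ k → d ≤ x → False := by omega
  have a1 := dadd (c 3) (c 0) (c 1)
  have a2 := dadd (c 3) (c 1) (c 2)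
  have a3 := dadd (c 3) (c 2) (c 0)
  have b1 := ZMod.val_lt (c 0 - c 3)
  have b2 := ZMod.val_lt (c 1 - c 3)
  have b3 := ZMod.val_lt (c 2 - c 3)
  rcases t1 with t1 | t1
  · replace t5 := t5.resolve_right fun h => l t1.1 h.1
    replace t4 := t4.resolve_right fun h => l t5.2.2.1 h.2.2.1
    replace t3 := t3.resolve_right fun h => l t4.1 h.2.1
    replace t2 := t2.resolve_right fun h => l t3.2.2.1 h.2.2.1
    replace t6 := t6.resolve_right fun h => l t3.1 h.1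
    replace t7 := t7.resolve_right fun h => l t6.2.2.1 h.2.2.1
    have := t3.1
    have := t2.1
    have := t7.1
    clear t2 t3 t4 t5 t6 t7 l
    omega
  · replace t5 := t5.resolve_left fun h => l h.1 t1.1
    replace t4 := t4.resolve_left fun h => l h.2.2.1 t5.2.2.1
    replace t3 := t3.resolve_left fun h => l h.2.1 t4.1
    replace t2 := t2.resolve_left fun h => l h.2.2.1 t3.2.2.1
    replace t6 := t6.resolve_left fun h => l h.1 t3.1
    replace t7 := t7.resolve_left fun h => l h.2.2.1 t6.2.2.1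
    have := t3.1
    have := t2.1
    have := t7.1
    clear t2 t3 t4 t5 t6 t7 l
    omega

end Pool.Agent.Results.MP_45899d_co.Two
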